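import Pool.Agent.Y192.FA.StB

/-!
The counting function, the sum of the orders and the heights over function fields of one variable:
the statements `St_cnt`, `St_jen` and `St_ht` of `Y192/FA/StB.lean`.
-/

set_option autoImplicit false

namespace Pool.Agent.Y37.FA

open Pool.Agent.Y192.FA
open Filter Set Topology FF Pool.Agent.W603.LV

theorem t_cnt : St_cnt := by
  intro N c
  refine ⟨?_, ?_, ?_, ?_⟩
  · intro E E' hE hE'
    refine ⟨?_, fun R => finsum_add_distrib hE hE'⟩
    apply (hE.union hE').subset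
    intro z hz
    by_contra hcon
    rw [Set.mem_union, Function.mem_support, Function.mem_support] at hcon
    push Not at hcon
    apply hz
    change E z + E' z = 0
    rw [hcon.1, hcon.2, add_zero]
  · intro a E hE
    refine ⟨?_, fun R => ?_⟩
    · apply hE.subset
      intro z hz h0
      exact hz (by
        change a * E z = 0
        rw [h0, mul_zero])
    · change ∑ᶠ z : c.P, a * E z = a * ∑ᶠ z : c.P, E z
      rw [mul_finsum]
  · intro E E' hE hE' hle R
    classical
    change ∑ᶠ z : c.P, E z ≤ ∑ᶠ z : c.P, E' z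
    have k1 : (Function.support E).Finite := hE
    have k2 : (Function.support E').Finite := hE'
    have e1 : ∑ᶠ z : c.P, E z = ∑ z ∈ k1.toFinset ∪ k2.toFinset, E z := by
      apply finsum_eq_sum_of_support_subset
      intro z hz
      rw [Finset.coe_union, Set.Finite.coe_toFinset]
      exact Or.inl hz
    have e2 : ∑ᶠ z : c.P, E' z = ∑ z ∈ k1.toFinset ∪ k2.toFinset, E' z := by
      apply finsum_eq_sum_of_support_subset
      intro z hz
      rw [Finset.coe_union, Set.Finite.coe_toFinset, Set.Finite.coe_toFinset]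
      exact Or.inr hz
    rw [e1, e2]
    exact Finset.sum_le_sum fun z _ => hle z trivial
  · intro E E' hE hle
    apply hE.subset
    intro z hz h0
    have h3 := hle z trivial
    rw [h0, abs_zero] at h3
    exact hz (abs_eq_zero.mp (le_antisymm h3 (abs_nonneg _)))

theorem ord_untop {N : ℕ} (c : Curve N) (f : c.Mr) (hf : f ≠ 0) (z : c.P) :
    (c.ord z f).untop₀ = z.ord (f : c.L) := by
  rw [c.ord_of_ne hf]
  rfl

theorem t_jen : St_jen := by
  intro N c f hf R
  unfold Curve.cnt
  have h1 : (fun z : c.P => (((c.ord z f).untop₀ : ℤ) : ℝ))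
      = fun z : c.P => ((z.ord (f : c.L) : ℤ) : ℝ) := by
    funext z
    rw [ord_untop c f hf]
  rw [h1]
  have h2 := sum_ord (k := ℂ) (f : c.L)
  have hfin : (Function.support fun z : Place ℂ c.L => z.ord (f : c.L)).Finite :=
    finite_support (f : c.L)
  have h3 : ((∑ᶠ z : Place ℂ c.L, z.ord (f : c.L) : ℤ) : ℝ)
      = ∑ᶠ z : Place ℂ c.L, ((z.ord (f : c.L) : ℤ) : ℝ) :=
    (Int.castAddHom ℝ).map_finsum hfin
  rw [← h3, h2, Int.cast_zero]

theorem cnt_sum {N : ℕ} (c : Curve N) {ι : Type} (s : Finset ι) (E : ι → c.P → ℝ)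
    (hE : ∀ i, c.LocFin (E i)) : c.LocFin (fun z => ∑ i ∈ s, E i z) ∧
      ∀ R, c.cnt (fun z => ∑ i ∈ s, E i z) R = ∑ i ∈ s, c.cnt (E i) R := by
  classical
  obtain ⟨h1, h2, h3, h4⟩ := t_cnt N c
  induction s using Finset.induction_on with
  | empty =>
    simp only [Finset.sum_empty]
    have h0 : c.LocFin (fun _ => (0 : ℝ)) := by
      apply Set.finite_empty.subset
      intro z hz
      exact absurd rfl hz
    refine ⟨h0, fun R => ?_⟩
    have := (h2 0 _ h0).2 R
    simpa using this
  | insert a s ha ih =>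
    simp only [Finset.sum_insert ha]
    refine ⟨(h1 _ _ (hE a) ih.1).1, fun R => ?_⟩
    rw [(h1 _ _ (hE a) ih.1).2 R, ih.2 R]

theorem del_add {N : ℕ} (c : Curve N) (z : c.P) (m m' : Fin N → ℤ) :
    c.del z (m + m') = c.del z m + c.del z m' := by
  unfold Curve.del
  rw [← Finset.sum_add_distrib]
  exact Finset.sum_congr rfl fun i _ => by rw [Pi.add_apply]; ring

theorem del_smul {N : ℕ} (c : Curve N) (z : c.P) (k : ℤ) (m : Fin N → ℤ) :
    c.del z (k • m) = k * c.del z m := by
  unfold Curve.del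
  rw [Finset.mul_sum]
  exact Finset.sum_congr rfl fun i _ => by rw [Pi.smul_apply, smul_eq_mul]; ring

/-- the orders of a monomial have finite support -/
theorem del_fin {N : ℕ} (c : Curve N) (m : Fin N → ℤ) :
    c.LocFin (fun z => (c.del z m : ℤ)) := by
  have hfin : (Function.support fun z : Place ℂ c.L => z.ord (c.monf m : c.L)).Finite :=
    finite_support (c.monf m : c.L)
  apply hfin.subset
  intro z hz h1
  apply hz
  change ((c.del z m : ℤ) : ℝ) = 0
  have h2 : z.ord (c.monf m : c.L) = 0 := h1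
  rw [← c.ord_monf, h2, Int.cast_zero]

theorem ht_eq {N : ℕ} (c : Curve N) (m : Fin N → ℤ) (R : ℝ) :
    c.ht m R = c.cnt (fun z => (|c.del z m| : ℤ)) R := by
  unfold Curve.ht Curve.cav
  rw [zero_add]

theorem t_ht : St_ht := by
  intro N c
  classical
  obtain ⟨hc1, hc2, hc3, hc4⟩ := t_cnt N c
  have hdel := del_fin c
  have hdel' : ∀ m : Fin N → ℤ, c.LocFin (fun z => ((|c.del z m| : ℤ) : ℝ)) := by
    intro m
    apply hc4 _ _ (hdel m)
    intro z _
    rw [Int.cast_abs, abs_abs]
  have hzero : c.LocFin (fun _ => (0 : ℝ)) := by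
    apply Set.finite_empty.subset
    intro z hz
    exact absurd rfl hz
  have hcz : ∀ R, c.cnt (fun _ => (0 : ℝ)) R = 0 := by
    intro R
    have := (hc2 0 _ hzero).2 R
    simpa using this
  have hcnn : ∀ (E : c.P → ℝ), c.LocFin E → (∀ z, 0 ≤ E z) → ∀ R, 0 ≤ c.cnt E R := by
    intro E hE h0 R
    rw [← hcz R]
    exact hc3 _ _ hzero hE (fun z _ => h0 z) R
  have hnn : ∀ R : ℝ, ∀ m, 0 ≤ c.ht m R := by
    intro R m
    rw [ht_eq]
    apply hcnn _ (hdel' m)
    intro z
    exact_mod_cast abs_nonneg (c.del z m)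
  have hadd : ∀ R : ℝ, ∀ m m', c.ht (m + m') R ≤ c.ht m R + c.ht m' R := by
    intro R m m'
    rw [ht_eq, ht_eq, ht_eq, ← (hc1 _ _ (hdel' m) (hdel' m')).2 R]
    apply hc3 _ _ (hdel' _) (hc1 _ _ (hdel' m) (hdel' m')).1
    intro z _
    rw [del_add]
    exact_mod_cast abs_add_le (c.del z m) (c.del z m')
  have hsm : ∀ R : ℝ, ∀ (k : ℤ) (m), c.ht (k • m) R = |(k : ℝ)| * c.ht m R := by
    intro R k m
    have e2 : (fun z => ((|c.del z (k • m)| : ℤ) : ℝ))
        = fun z => |(k : ℝ)| * ((|c.del z m| : ℤ) : ℝ) := by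
      funext z
      rw [del_smul, abs_mul]
      push_cast
      ring
    rw [ht_eq, ht_eq, e2, (hc2 _ _ (hdel' m)).2 R]
  have hch : ∀ R : ℝ, 0 ≤ c.ch R := fun R =>
    Finset.sum_nonneg fun i _ => hnn R _
  have hle : ∀ R : ℝ, ∀ m, c.ht m R ≤ (∑ i, |(m i : ℝ)|) * c.ch R := by
    intro R m
    have hsum : ∀ s : Finset (Fin N), c.ht (∑ i ∈ s, m i • (Pi.single i 1 : Fin N → ℤ)) R ≤
        ∑ i ∈ s, |(m i : ℝ)| * c.ht (Pi.single i 1) R := by
      intro s
      induction s using Finset.induction_on with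
      | empty =>
        rw [Finset.sum_empty, Finset.sum_empty]
        have h0 := hsm R 0 (0 : Fin N → ℤ)
        rw [zero_smul] at h0
        rw [h0]
        simp
      | insert a s ha ih =>
        rw [Finset.sum_insert ha, Finset.sum_insert ha]
        refine (hadd R _ _).trans ?_
        rw [hsm R]
        linarith
    have hm : m = ∑ i, m i • (Pi.single i 1 : Fin N → ℤ) := by
      funext j
      rw [Finset.sum_apply, Finset.sum_eq_single j]
      · simp
      · intro i _ hi
        rw [Pi.smul_apply, Pi.single_eq_of_ne (Ne.symm hi), smul_zero]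
      · intro h
        exact absurd (Finset.mem_univ j) h
    have h1 := hsum Finset.univ
    rw [← hm] at h1
    refine h1.trans ?_
    rw [Finset.sum_mul]
    apply Finset.sum_le_sum
    intro i _
    apply mul_le_mul_of_nonneg_left _ (abs_nonneg _)
    exact Finset.single_le_sum (f := fun i : Fin N => c.ht (Pi.single i 1) R)
      (fun j _ => hnn R _) (Finset.mem_univ i)
  exact ⟨fun R _ => ⟨hnn R, hadd R, hsm R, hle R, hch R, fun _ => trivial, fun _ => trivial⟩,
    fun R m => ht_eq c m R⟩

end Pool.Agent.Y37.FA
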